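import Pool.Agent.W669.HD.Stm2

/-!
# Two alternating factors
-/

set_option autoImplicit false

namespace Pool.Agent.W427.HD

open Pool.Agent.W666.GB Pool.Agent.W669.HD Finset

variable {m : ℕ}

/-- the other factors -/
noncomputable def xx (P : T4 m) (b₀ b₁ : Fin m) (σ τ : Fin m × Bool → Fin m × Bool) : ℝ :=
  ∏ b ∈ (univ.erase b₀).erase b₁, P (σ (b, false)) (σ (b, true)) (τ (b, false)) (τ (b, true))

/-- double alternating sum -/
noncomputable def SS (A : Equiv.Perm (Fin m × Bool) → Equiv.Perm (Fin m × Bool) → ℝ) : ℝ :=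
  ∑ σ : Equiv.Perm (Fin m × Bool), ∑ τ : Equiv.Perm (Fin m × Bool), sn σ * sn τ * A σ τ

theorem bian {P : T4 m} (hP : Cur P) (b : Fin m) (k : Fin m × Bool) (hk : k.1 ≠ b)
    (W : Equiv.Perm (Fin m × Bool) → ℝ)
    (hW : ∀ σ σ' : Equiv.Perm (Fin m × Bool), (∀ x, x ≠ k → x ≠ (b, false) → x ≠ (b, true) →
      σ x = σ' x) → W σ = W σ') (d : Fin m × Bool) :
    ∑ σ : Equiv.Perm (Fin m × Bool), sn σ *
      (W σ * P (σ (b, false)) (σ (b, true)) (σ k) d) = 0 := by
  set H : Equiv.Perm (Fin m × Bool) → ℝ := fun σ =>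
    W σ * P (σ (b, false)) (σ (b, true)) (σ k) d with hH
  set c : Equiv.Perm (Fin m × Bool) :=
    Equiv.swap (b, false) (b, true) * Equiv.swap (b, true) k with hc
  have kf : (b, false) ≠ k := fun h => hk (by rw [← h])
  have kt : (b, true) ≠ k := fun h => hk (by rw [← h])
  have ft : ((b, false) : Fin m × Bool) ≠ (b, true) := by simp
  have hsc : sn c = 1 := by
    rw [hc, sn_mul]
    simp [sn, Equiv.Perm.sign_swap ft, Equiv.Perm.sign_swap kt]
  have e2 : c (b, false) = (b, true) := by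
    rw [hc, Equiv.Perm.mul_apply, Equiv.swap_apply_of_ne_of_ne ft kf, Equiv.swap_apply_left]
  have e3 : c (b, true) = k := by
    rw [hc, Equiv.Perm.mul_apply, Equiv.swap_apply_left]
    exact Equiv.swap_apply_of_ne_of_ne kf.symm kt.symm
  have e4 : c k = (b, false) := by
    rw [hc, Equiv.Perm.mul_apply, Equiv.swap_apply_right, Equiv.swap_apply_right]
  have e5 : ∀ x, x ≠ k → x ≠ (b, false) → x ≠ (b, true) → c x = x := by
    intro x h1 h2 h3
    rw [hc, Equiv.Perm.mul_apply, Equiv.swap_apply_of_ne_of_ne h3 h1,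
      Equiv.swap_apply_of_ne_of_ne h2 h3]
  have hW' : ∀ σ, W (σ * c) = W σ := by
    intro σ
    refine hW _ _ fun x h1 h2 h3 => ?_
    rw [Equiv.Perm.mul_apply, e5 x h1 h2 h3]
  have k1 := sum_mulRight c hsc H
  have k2 := sum_mulRight c hsc (fun σ => H (σ * c))
  have k3 : ∀ σ, H σ + H (σ * c) + H (σ * c * c) = 0 := by
    intro σ
    simp only [hH, hW']
    simp only [Equiv.Perm.mul_apply, e2, e3, e4]
    have := hP.bia (σ (b, false)) (σ (b, true)) (σ k) d
    linear_combination (W σ) * this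
  have k4 : ∑ σ : Equiv.Perm (Fin m × Bool), (sn σ * H σ + sn σ * H (σ * c) +
      sn σ * H (σ * c * c)) = 0 := by
    refine Finset.sum_eq_zero fun σ _ => ?_
    have := k3 σ
    linear_combination sn σ * this
  rw [Finset.sum_add_distrib, Finset.sum_add_distrib] at k4
  rw [k2, k1] at k4
  linarith

theorem xx_upd (P : T4 m) (b₀ b₁ : Fin m) (σ τ : Fin m × Bool → Fin m × Bool) (s u : Fin m × Bool)
    (hs : s.1 = b₀ ∨ s.1 = b₁) :
    xx P b₀ b₁ σ (fun j => if j = s then u else τ j) = xx P b₀ b₁ σ τ := by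
  unfold xx
  refine Finset.prod_congr rfl fun b hb => ?_
  have h1 : b ≠ b₁ := Finset.ne_of_mem_erase hb
  have h0 : b ≠ b₀ := Finset.ne_of_mem_erase (Finset.mem_of_mem_erase hb)
  have h2 : ∀ β : Bool, (b, β) ≠ s := by
    intro β h
    rcases hs with hs | hs
    · exact h0 (by rw [← hs, ← h])
    · exact h1 (by rw [← hs, ← h])
  simp only [h2, if_false]

set_option linter.unusedSimpArgs false in
theorem exch {P : T4 m} (hP : Cur P) (b₀ b₁ : Fin m) (h : b₁ ≠ b₀) (k : Fin m × Bool)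
    (hk : k.1 = b₀ ∨ k.1 = b₁)
    (G : Equiv.Perm (Fin m × Bool) → Fin m × Bool → Fin m × Bool → Fin m × Bool →
      Fin m × Bool → Fin m × Bool → ℝ)
    (hG : ∀ σ σ' : Equiv.Perm (Fin m × Bool), (∀ x, (x.1 = b₀ ∨ x.1 = b₁) → x ≠ k → σ x = σ' x) →
      G σ = G σ') :
    SS (fun σ τ => G σ (σ k) (τ (b₀, false)) (τ (b₀, true)) (τ (b₁, false)) (τ (b₁, true)) *
        xx P b₀ b₁ σ τ) =
      SS (fun σ τ => G σ (τ (b₀, false)) (σ k) (τ (b₀, true)) (τ (b₁, false)) (τ (b₁, true)) *
        xx P b₀ b₁ σ τ) +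
      SS (fun σ τ => G σ (τ (b₀, true)) (τ (b₀, false)) (σ k) (τ (b₁, false)) (τ (b₁, true)) *
        xx P b₀ b₁ σ τ) +
      SS (fun σ τ => G σ (τ (b₁, false)) (τ (b₀, false)) (τ (b₀, true)) (σ k) (τ (b₁, true)) *
        xx P b₀ b₁ σ τ) +
      SS (fun σ τ => G σ (τ (b₁, true)) (τ (b₀, false)) (τ (b₀, true)) (τ (b₁, false)) (σ k) *
        xx P b₀ b₁ σ τ) := by
  set F : Equiv.Perm (Fin m × Bool) → (Option (Fin m × Bool) → Fin m × Bool) → ℝ :=
    fun σ y => G σ (y none) (y (some (b₀, false))) (y (some (b₀, true))) (y (some (b₁, false)))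
      (y (some (b₁, true))) * xx P b₀ b₁ σ (fun j => y (some j)) with hF
  set A : Equiv.Perm (Fin m × Bool) → Equiv.Perm (Fin m × Bool) → ℝ := fun σ τ =>
    G σ (σ k) (τ (b₀, false)) (τ (b₀, true)) (τ (b₁, false)) (τ (b₁, true)) *
        xx P b₀ b₁ σ τ with hA
  set B : Fin m × Bool → Equiv.Perm (Fin m × Bool) → Equiv.Perm (Fin m × Bool) → ℝ :=
    fun s σ τ => F σ (fun o => o.elim (τ s) (fun j => if j = s then σ k else τ j)) with hB
  have hz : ∀ σ : Equiv.Perm (Fin m × Bool), ∑ τ : Equiv.Perm (Fin m × Bool),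
      sn τ * (A σ τ - ∑ s, B s σ τ) = 0 := by
    intro σ
    have := alt_option (σ k) (F σ)
    simpa [hF, hA, hB] using this
  have hsum : SS A = ∑ s, SS (B s) := by
    have h1 : SS A - SS (fun σ τ => ∑ s, B s σ τ) = 0 := by
      unfold SS
      rw [← Finset.sum_sub_distrib]
      refine Finset.sum_eq_zero fun σ _ => ?_
      rw [← Finset.sum_sub_distrib]
      have := hz σ
      rw [← mul_zero (sn σ), ← this, Finset.mul_sum]
      exact Finset.sum_congr rfl fun τ _ => by ring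
    have h2 : SS (fun σ τ => ∑ s, B s σ τ) = ∑ s, SS (B s) := by
      unfold SS
      simp only [Finset.mul_sum]
      rw [Finset.sum_congr rfl fun σ _ => Finset.sum_comm, Finset.sum_comm]
    rw [← h2]
    linarith
  have hrest : ∀ b, b ≠ b₀ → b ≠ b₁ → ∀ β : Bool, SS (B (b, β)) = 0 := by
    intro b h0 h1 β
    have hmem : b ∈ (univ.erase b₀).erase b₁ :=
      Finset.mem_erase.mpr ⟨h1, Finset.mem_erase.mpr ⟨h0, Finset.mem_univ _⟩⟩
    unfold SS
    rw [Finset.sum_comm]
    refine Finset.sum_eq_zero fun τ _ => ?_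
    set W : Equiv.Perm (Fin m × Bool) → ℝ := fun σ =>
      G σ (τ (b, β)) (τ (b₀, false)) (τ (b₀, true)) (τ (b₁, false)) (τ (b₁, true)) *
        ∏ b' ∈ ((univ.erase b₀).erase b₁).erase b,
          P (σ (b', false)) (σ (b', true)) (τ (b', false)) (τ (b', true)) with hW
    have hexp : ∀ σ : Equiv.Perm (Fin m × Bool), B (b, β) σ τ =
        W σ * P (σ (b, false)) (σ (b, true)) (if β = false then σ k else τ (b, false))
          (if β = true then σ k else τ (b, true)) := by
      intro σ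
      simp only [hB, hF, Option.elim_none, Option.elim_some, hW, xx]
      rw [← Finset.mul_prod_erase _ _ hmem]
      have j1 : ∀ β' : Bool, (b₀, β') ≠ (b, β) := fun β' hh => h0 (congrArg Prod.fst hh).symm
      have j2 : ∀ β' : Bool, (b₁, β') ≠ (b, β) := fun β' hh => h1 (congrArg Prod.fst hh).symm
      simp only [j1, j2, if_false]
      have j3 : (∏ b' ∈ ((univ.erase b₀).erase b₁).erase b,
          P (σ (b', false)) (σ (b', true)) (if (b', false) = (b, β) then σ k else τ (b', false))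
            (if (b', true) = (b, β) then σ k else τ (b', true))) =
          ∏ b' ∈ ((univ.erase b₀).erase b₁).erase b,
          P (σ (b', false)) (σ (b', true)) (τ (b', false)) (τ (b', true)) := by
        refine Finset.prod_congr rfl fun b' hb' => ?_
        have h3 : b' ≠ b := Finset.ne_of_mem_erase hb'
        have h4 : ∀ β' : Bool, (b', β') ≠ (b, β) := fun β' hh => h3 (congrArg Prod.fst hh)
        simp only [h4, if_false]
      rw [j3]
      cases β <;> simp <;> ring
    have hWW : ∀ σ σ' : Equiv.Perm (Fin m × Bool), (∀ x, x ≠ k → x ≠ (b, false) →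
        x ≠ (b, true) → σ x = σ' x) → W σ = W σ' := by
      intro σ σ' hh
      have g1 : G σ = G σ' := by
        refine hG σ σ' fun x hx hxk => hh x hxk ?_ ?_
        · rintro rfl
          rcases hx with hx | hx
          · exact h0 hx
          · exact h1 hx
        · rintro rfl
          rcases hx with hx | hx
          · exact h0 hx
          · exact h1 hx
      simp only [hW, g1]
      congr 1
      refine Finset.prod_congr rfl fun b' hb' => ?_
      have h3 : b' ≠ b := Finset.ne_of_mem_erase hb'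
      have h4 : b' ≠ b₁ := Finset.ne_of_mem_erase (Finset.mem_of_mem_erase hb')
      have h5 : b' ≠ b₀ :=
        Finset.ne_of_mem_erase (Finset.mem_of_mem_erase (Finset.mem_of_mem_erase hb'))
      have h6 : ∀ β' : Bool, σ (b', β') = σ' (b', β') := by
        intro β'
        refine hh _ ?_ ?_ ?_
        · rintro rfl
          rcases hk with hk | hk
          · exact h5 hk
          · exact h4 hk
        · exact fun hh => h3 (congrArg Prod.fst hh)
        · exact fun hh => h3 (congrArg Prod.fst hh)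
      rw [h6, h6]
    have hkb : k.1 ≠ b := by
      rcases hk with hk | hk
      · rw [hk]; exact h0.symm
      · rw [hk]; exact h1.symm
    simp only [hexp]
    cases β with
    | false =>
      have h2 := bian hP b k hkb W hWW (τ (b, true))
      rw [← mul_zero (sn τ), ← h2, Finset.mul_sum]
      refine Finset.sum_congr rfl fun σ _ => ?_
      simp only [Bool.false_eq_true, if_false, if_true]
      ring
    | true =>
      have h2 := bian hP b k hkb W hWW (τ (b, false))
      rw [← mul_zero (- sn τ), ← h2, Finset.mul_sum]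
      refine Finset.sum_congr rfl fun σ _ => ?_
      simp only [Bool.true_eq_false, if_false, if_true]
      rw [hP.a34 _ _ (σ k) (τ (b, false))]
      ring
  have hs : ∑ s, SS (B s) = SS (B (b₀, false)) + SS (B (b₀, true)) + SS (B (b₁, false)) +
      SS (B (b₁, true)) := by
    rw [Fintype.sum_prod_type, ← Finset.add_sum_erase univ _ (Finset.mem_univ b₀),
      ← Finset.add_sum_erase (univ.erase b₀) _ (Finset.mem_erase.mpr ⟨h, Finset.mem_univ b₁⟩)]
    rw [Finset.sum_eq_zero (s := (univ.erase b₀).erase b₁)]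
    · simp only [Fintype.sum_bool]; ring
    · intro b hb
      have h1 : b ≠ b₁ := Finset.ne_of_mem_erase hb
      have h0 : b ≠ b₀ := Finset.ne_of_mem_erase (Finset.mem_of_mem_erase hb)
      simp only [Fintype.sum_bool, hrest b h0 h1, add_zero]
  rw [hsum, hs]
  have n1 : ∀ β β' : Bool, ((b₀, β) : Fin m × Bool) ≠ (b₁, β') :=
    fun β β' hh => h (congrArg Prod.fst hh).symm
  have n2 : ∀ β β' : Bool, ((b₁, β) : Fin m × Bool) ≠ (b₀, β') :=
    fun β β' hh => h (congrArg Prod.fst hh)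
  have n3 : ∀ b : Fin m, ((b, false) : Fin m × Bool) ≠ (b, true) := by simp
  have n4 : ∀ b : Fin m, ((b, true) : Fin m × Bool) ≠ (b, false) := by simp
  congr 1
  · congr 1
    · congr 1
      · simp only [hB, hF, Option.elim_none, Option.elim_some]
        simp only [n1, n2, n3, n4, if_true, if_false]
        simp only [xx_upd P b₀ b₁ _ _ (b₀, false) _ (Or.inl rfl)]
      · simp only [hB, hF, Option.elim_none, Option.elim_some]
        simp only [n1, n2, n3, n4, if_true, if_false]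
        simp only [xx_upd P b₀ b₁ _ _ (b₀, true) _ (Or.inl rfl)]
    · simp only [hB, hF, Option.elim_none, Option.elim_some]
      simp only [n1, n2, n3, n4, if_true, if_false]
      simp only [xx_upd P b₀ b₁ _ _ (b₁, false) _ (Or.inr rfl)]
  · simp only [hB, hF, Option.elim_none, Option.elim_some]
    simp only [n1, n2, n3, n4, if_true, if_false]
    simp only [xx_upd P b₀ b₁ _ _ (b₁, true) _ (Or.inr rfl)]

theorem SS_neg (A : Equiv.Perm (Fin m × Bool) → Equiv.Perm (Fin m × Bool) → ℝ) :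
    SS (fun σ τ => - A σ τ) = - SS A := by
  unfold SS
  simp only [mul_neg, Finset.sum_neg_distrib]

theorem SS_swap (x y : Fin m × Bool) (hxy : x ≠ y)
    (A : Equiv.Perm (Fin m × Bool) → Equiv.Perm (Fin m × Bool) → ℝ) :
    SS (fun σ τ => A σ (τ * Equiv.swap x y)) = - SS A := by
  unfold SS
  rw [← Finset.sum_neg_distrib]
  refine Finset.sum_congr rfl fun σ _ => ?_
  rw [← Equiv.sum_comp (Equiv.mulRight (Equiv.swap x y))
    (fun τ : Equiv.Perm (Fin m × Bool) => sn σ * sn τ * A σ τ), ← Finset.sum_neg_distrib]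
  refine Finset.sum_congr rfl fun τ _ => ?_
  have : sn (Equiv.swap x y) = -1 := by simp [sn, Equiv.Perm.sign_swap hxy]
  simp only [Equiv.coe_mulRight, sn_mul, this]
  ring

theorem de : S_DE := by
  intro m P Ω n ν hP hΩ hν b₀ b₁ h
  set D2 : ℝ := SS (fun σ τ : Equiv.Perm (Fin m × Bool) =>
    (Ω (σ (b₀, false)) (σ (b₀, true)) (τ (b₀, false)) (τ (b₀, true)) *
      Ω (σ (b₁, false)) (σ (b₁, true)) (τ (b₁, false)) (τ (b₁, true))) * xx P b₀ b₁ σ τ) with hD2
  set D1 : ℝ := SS (fun σ τ : Equiv.Perm (Fin m × Bool) =>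
    (Ω (σ (b₀, false)) (τ (b₀, false)) (τ (b₀, true)) (τ (b₁, false)) *
      Ω (σ (b₀, true)) (σ (b₁, false)) (σ (b₁, true)) (τ (b₁, true))) * xx P b₀ b₁ σ τ) with hD1
  set D0 : ℝ := SS (fun σ τ : Equiv.Perm (Fin m × Bool) =>
    (Ω (τ (b₀, false)) (τ (b₀, true)) (τ (b₁, false)) (τ (b₁, true)) *
      Ω (σ (b₀, false)) (σ (b₀, true)) (σ (b₁, false)) (σ (b₁, true))) * xx P b₀ b₁ σ τ) with hD0
  -- the mixed sum
  have hmix : mix Ω P {b₀, b₁} = D2 := by
    simp only [mix, gm, hD2, SS]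
    refine Finset.sum_congr rfl fun σ _ => Finset.sum_congr rfl fun τ _ => ?_
    rw [← Finset.mul_prod_erase univ _ (Finset.mem_univ b₀),
      ← Finset.mul_prod_erase (univ.erase b₀) _ (Finset.mem_erase.mpr ⟨h, Finset.mem_univ b₁⟩)]
    have h2 : b₀ ∈ ({b₀, b₁} : Finset (Fin m)) := by simp
    have h3 : b₁ ∈ ({b₀, b₁} : Finset (Fin m)) := by simp
    have h4 : ∏ b ∈ (univ.erase b₀).erase b₁, (if b ∈ ({b₀, b₁} : Finset (Fin m)) then Ω else P)
        (σ (b, false)) (σ (b, true)) (τ (b, false)) (τ (b, true)) = xx P b₀ b₁ σ τ := by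
      unfold xx
      refine Finset.prod_congr rfl fun b hb => ?_
      have h1 : b ≠ b₁ := Finset.ne_of_mem_erase hb
      have h0 : b ≠ b₀ := Finset.ne_of_mem_erase (Finset.mem_of_mem_erase hb)
      have : b ∉ ({b₀, b₁} : Finset (Fin m)) := by simp [h0, h1]
      rw [if_neg this]
    rw [h4, if_pos h2, if_pos h3]
    ring
  -- step one
  have s1 : D2 = - D2 + - D2 + D1 + D1 := by
    have e := exch hP b₀ b₁ h (b₀, true) (Or.inl rfl)
      (fun σ v t0 t1 t2 t3 => Ω (σ (b₀, false)) v t0 t1 *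
        Ω (σ (b₁, false)) (σ (b₁, true)) t2 t3)
      (by
        intro σ σ' hh
        have e0 := hh (b₀, false) (Or.inl rfl) (by simp)
        have e2 := hh (b₁, false) (Or.inr rfl) (by simp)
        have e3 := hh (b₁, true) (Or.inr rfl) (by simp [h])
        rw [e0, e2, e3])
    rw [← hD2] at e
    have t0 : SS (fun σ τ : Equiv.Perm (Fin m × Bool) =>
        Ω (σ (b₀, false)) (τ (b₀, false)) (σ (b₀, true)) (τ (b₀, true)) *
        Ω (σ (b₁, false)) (σ (b₁, true)) (τ (b₁, false)) (τ (b₁, true)) * xx P b₀ b₁ σ τ) =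
        - D2 := by
      rw [hD2, ← SS_neg]
      congr 1
      ext σ τ
      rw [hΩ.a23]; ring
    have t1 : SS (fun σ τ : Equiv.Perm (Fin m × Bool) =>
        Ω (σ (b₀, false)) (τ (b₀, true)) (τ (b₀, false)) (σ (b₀, true)) *
        Ω (σ (b₁, false)) (σ (b₁, true)) (τ (b₁, false)) (τ (b₁, true)) * xx P b₀ b₁ σ τ) =
        - D2 := by
      rw [hD2, ← SS_neg]
      congr 1
      ext σ τ
      rw [hΩ.a34, hΩ.a23, hΩ.a34]; ring
    have t2 : SS (fun σ τ : Equiv.Perm (Fin m × Bool) =>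
        Ω (σ (b₀, false)) (τ (b₁, false)) (τ (b₀, false)) (τ (b₀, true)) *
        Ω (σ (b₁, false)) (σ (b₁, true)) (σ (b₀, true)) (τ (b₁, true)) * xx P b₀ b₁ σ τ) =
        D1 := by
      rw [hD1]
      congr 1
      ext σ τ
      rw [hΩ.a23 _ (τ (b₀, false)) (τ (b₁, false)), hΩ.a34 _ _ (τ (b₀, true)),
        hΩ.a23 _ (σ (b₀, true)) (σ (b₁, true)), hΩ.a12 (σ (b₀, true))]
      ring
    have t3 : SS (fun σ τ : Equiv.Perm (Fin m × Bool) =>
        Ω (σ (b₀, false)) (τ (b₁, true)) (τ (b₀, false)) (τ (b₀, true)) *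
        Ω (σ (b₁, false)) (σ (b₁, true)) (τ (b₁, false)) (σ (b₀, true)) * xx P b₀ b₁ σ τ) =
        D1 := by
      have hsw := SS_swap (b₁, false) (b₁, true) (by simp) (fun σ τ : Equiv.Perm (Fin m × Bool) =>
        (Ω (σ (b₀, false)) (τ (b₀, false)) (τ (b₀, true)) (τ (b₁, false)) *
          Ω (σ (b₀, true)) (σ (b₁, false)) (σ (b₁, true)) (τ (b₁, true))) * xx P b₀ b₁ σ τ)
      rw [← hD1] at hsw
      rw [← neg_neg D1, ← hsw, ← SS_neg]
      congr 1
      ext σ τ
      have hx : xx P b₀ b₁ σ (τ * Equiv.swap (b₁, false) (b₁, true) :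
          Equiv.Perm (Fin m × Bool)) = xx P b₀ b₁ σ τ := by
        unfold xx
        refine Finset.prod_congr rfl fun b hb => ?_
        have h1 : b ≠ b₁ := Finset.ne_of_mem_erase hb
        have h2 : ∀ β : Bool, Equiv.swap ((b₁, false) : Fin m × Bool) (b₁, true) (b, β) =
            (b, β) := fun β => Equiv.swap_apply_of_ne_of_ne (by simp [h1]) (by simp [h1])
        simp only [Equiv.Perm.mul_apply, h2]
      have h3 : ∀ β : Bool, Equiv.swap ((b₁, false) : Fin m × Bool) (b₁, true) (b₀, β) =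
          (b₀, β) := fun β => Equiv.swap_apply_of_ne_of_ne (by simp [h.symm]) (by simp [h.symm])
      simp only [hx, Equiv.Perm.mul_apply, h3, Equiv.swap_apply_left, Equiv.swap_apply_right]
      rw [hΩ.a23 _ (τ (b₀, false)) (τ (b₁, true)), hΩ.a34 _ _ (τ (b₀, true)),
        hΩ.a34 _ _ (σ (b₀, true)), hΩ.a23 _ (σ (b₀, true)) (σ (b₁, true)), hΩ.a12 (σ (b₀, true))]
      ring
    rw [t0, t1, t2, t3] at e
    exact e
  -- step two
  have s2 : D1 = - D1 + - D1 + - D1 + D0 := by
    have e := exch hP b₀ b₁ h (b₀, false) (Or.inl rfl)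
      (fun σ v t0 t1 t2 t3 => Ω v t0 t1 t2 *
        Ω (σ (b₀, true)) (σ (b₁, false)) (σ (b₁, true)) t3)
      (by
        intro σ σ' hh
        have e0 := hh (b₀, true) (Or.inl rfl) (by simp)
        have e2 := hh (b₁, false) (Or.inr rfl) (by simp [h])
        have e3 := hh (b₁, true) (Or.inr rfl) (by simp)
        rw [e0, e2, e3])
    rw [← hD1] at e
    have t0 : SS (fun σ τ : Equiv.Perm (Fin m × Bool) =>
        Ω (τ (b₀, false)) (σ (b₀, false)) (τ (b₀, true)) (τ (b₁, false)) *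
        Ω (σ (b₀, true)) (σ (b₁, false)) (σ (b₁, true)) (τ (b₁, true)) * xx P b₀ b₁ σ τ) =
        - D1 := by
      rw [hD1, ← SS_neg]
      congr 1
      ext σ τ
      rw [hΩ.a12 (σ (b₀, false))]; ring
    have t1 : SS (fun σ τ : Equiv.Perm (Fin m × Bool) =>
        Ω (τ (b₀, true)) (τ (b₀, false)) (σ (b₀, false)) (τ (b₁, false)) *
        Ω (σ (b₀, true)) (σ (b₁, false)) (σ (b₁, true)) (τ (b₁, true)) * xx P b₀ b₁ σ τ) =
        - D1 := by
      rw [hD1, ← SS_neg]
      congr 1
      ext σ τ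
      rw [hΩ.a12 (τ (b₀, false)), hΩ.a23 _ (σ (b₀, false)), hΩ.a12 (σ (b₀, false))]; ring
    have t2 : SS (fun σ τ : Equiv.Perm (Fin m × Bool) =>
        Ω (τ (b₁, false)) (τ (b₀, false)) (τ (b₀, true)) (σ (b₀, false)) *
        Ω (σ (b₀, true)) (σ (b₁, false)) (σ (b₁, true)) (τ (b₁, true)) * xx P b₀ b₁ σ τ) =
        - D1 := by
      rw [hD1, ← SS_neg]
      congr 1
      ext σ τ
      rw [hΩ.a12 (τ (b₀, false)), hΩ.a23 _ (τ (b₀, true)), hΩ.a34 _ _ (σ (b₀, false)),
        hΩ.a23 _ (σ (b₀, false)), hΩ.a12 (σ (b₀, false))]; ring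
    have t3 : SS (fun σ τ : Equiv.Perm (Fin m × Bool) =>
        Ω (τ (b₁, true)) (τ (b₀, false)) (τ (b₀, true)) (τ (b₁, false)) *
        Ω (σ (b₀, true)) (σ (b₁, false)) (σ (b₁, true)) (σ (b₀, false)) * xx P b₀ b₁ σ τ) =
        D0 := by
      rw [hD0]
      congr 1
      ext σ τ
      rw [hΩ.a12 (τ (b₀, false)), hΩ.a23 _ (τ (b₀, true)), hΩ.a34 _ _ (τ (b₁, false)),
        hΩ.a34 _ _ (σ (b₀, false)), hΩ.a23 _ (σ (b₀, false)), hΩ.a12 (σ (b₀, false))]; ring
    rw [t0, t1, t2, t3] at e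
    exact e
  -- step three
  have s3 : 0 ≤ D0 := by
    have h1 : D0 = ∑ p ∈ ((univ.erase b₀).erase b₁).pi (fun _ => (univ : Finset (Fin n))),
        (∑ σ : Equiv.Perm (Fin m × Bool), sn σ *
          (Ω (σ (b₀, false)) (σ (b₀, true)) (σ (b₁, false)) (σ (b₁, true)) *
            ∏ x ∈ ((univ.erase b₀).erase b₁).attach,
              ν (p x.1 x.2) (σ (x.1, false)) (σ (x.1, true)))) ^ 2 := by
      have h2 : ∀ σ τ : Equiv.Perm (Fin m × Bool), xx P b₀ b₁ σ τ =
          ∑ p ∈ ((univ.erase b₀).erase b₁).pi (fun _ => (univ : Finset (Fin n))),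
            (∏ x ∈ ((univ.erase b₀).erase b₁).attach,
              ν (p x.1 x.2) (σ (x.1, false)) (σ (x.1, true))) *
            ∏ x ∈ ((univ.erase b₀).erase b₁).attach,
              ν (p x.1 x.2) (τ (x.1, false)) (τ (x.1, true)) := by
        intro σ τ
        unfold xx
        simp only [hν]
        rw [Finset.prod_sum]
        refine Finset.sum_congr rfl fun p _ => ?_
        rw [Finset.prod_mul_distrib]
      simp only [hD0, SS, h2, Finset.mul_sum]
      rw [Finset.sum_congr rfl fun σ _ => Finset.sum_comm, Finset.sum_comm]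
      refine Finset.sum_congr rfl fun p _ => ?_
      rw [sq, Finset.sum_mul_sum]
      refine Finset.sum_congr rfl fun σ _ => Finset.sum_congr rfl fun τ _ => ?_
      ring
    rw [h1]
    exact Finset.sum_nonneg fun p _ => sq_nonneg _
  rw [hmix]
  linarith

end Pool.Agent.W427.HD
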